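import Mathlib
import Pool.Agent.Q291.OP.Graph

/-!
# A fortress-free 4-regular graph quasi-isometric to the plane without 2-neighbour invasion

There is a 4-regular connected graph, quasi-isometric to `ℤ²`, without fortress, on which the
2-neighbour contamination process started from a Bernoulli configuration of small density does
not invade the graph almost surely.
-/

namespace Pool.Agent.Results.MP_38c1f8_pr.FortressFree

open MeasureTheory

variable {V : Type}

/-- The square lattice `ℤ²`: two points are adjacent when they are at `ℓ¹` distance `1`. -/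
def lattice : SimpleGraph (ℤ × ℤ) where
  Adj a b := |a.1 - b.1| + |a.2 - b.2| = 1
  symm := ⟨fun a b h => by rw [abs_sub_comm b.1, abs_sub_comm b.2]; exact h⟩
  loopless := ⟨fun a h => by simp at h⟩

/-- Two (connected) graphs are quasi-isometric, for their graph metrics. -/
def QuasiIsometric {W : Type} (G : SimpleGraph V) (H : SimpleGraph W) : Prop :=
  ∃ (f : V → W) (a b : ℝ), 1 ≤ a ∧ 0 ≤ b ∧
    (∀ x y, (G.dist x y : ℝ) / a - b ≤ H.dist (f x) (f y) ∧
      (H.dist (f x) (f y) : ℝ) ≤ a * G.dist x y + b) ∧
    ∀ z, ∃ x, (H.dist z (f x) : ℝ) ≤ b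

open Classical in
/-- The 2-neighbour contamination map: a vertex becomes infected (`true`) when it has at least
two infected neighbours; infected vertices stay infected. -/
noncomputable def contaminate (G : SimpleGraph V) (c : V → Bool) : V → Bool :=
  fun v => decide (c v = true ∨ 2 ≤ {w | G.Adj v w ∧ c w = true}.encard)

/-- The invasion set: the configurations from which every vertex gets infected. -/
def invasion (G : SimpleGraph V) : Set (V → Bool) :=
  {c | ∀ v, ∃ n : ℕ, ((contaminate G)^[n] c) v = true}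

/-- A fortress: a finite nonempty set each of whose vertices has at most one neighbour outside. -/
def IsFortress (G : SimpleGraph V) (S : Set V) : Prop :=
  S.Finite ∧ S.Nonempty ∧ ∀ v ∈ S, {w | G.Adj v w ∧ w ∉ S}.encard ≤ 1

/-- The Bernoulli measure: every vertex is infected with probability `p`, independently. -/
noncomputable def bernoulli (V : Type) (p : unitInterval) : Measure (V → Bool) :=
  Measure.infinitePi (fun _ => ProbabilityTheory.bernoulliMeasure true false p)

/-- A set of healthy vertices which have at most one neighbour outside stays healthy. -/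
lemma stays_healthy (G : SimpleGraph V) (H : Set V) (c : V → Bool)
    (hc : ∀ v ∈ H, c v = false) (hH : ∀ v ∈ H, {w | G.Adj v w ∧ w ∉ H}.encard ≤ 1) :
    ∀ (n : ℕ), ∀ v ∈ H, ((contaminate G)^[n] c) v = false := by
  intro n
  induction n with
  | zero => exact hc
  | succ n ih =>
    intro v hv
    rw [Function.iterate_succ_apply']
    unfold contaminate
    rw [decide_eq_false_iff_not]
    rintro (h | h)
    · have := ih v hv
      unfold contaminate at this
      rw [this] at h
      exact Bool.false_ne_true h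
    · have hsub : {w | G.Adj v w ∧ ((contaminate G)^[n] c) w = true} ⊆
          {w | G.Adj v w ∧ w ∉ H} := by
        intro w hw
        refine ⟨hw.1, fun hwH => ?_⟩
        have h1 := ih w hwH
        have h2 := hw.2
        rw [h1] at h2
        exact Bool.false_ne_true h2
      have h1 := (Set.encard_le_encard hsub).trans (hH v hv)
      have h2 : (2 : ℕ∞) ≤ 1 := h.trans h1
      exact absurd h2 (by decide)

open Q291.OP in
/-- The healthy set made of the cells of `K`. -/
def shelter (K : Set (ℤ × ℤ)) : Set Q291.OP.V :=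
  {v | v.1 ∈ K ∧ (v.2 = 5 → v.1 + (1, 0) ∈ K) ∧ (v.2 = 6 → v.1 + (0, 1) ∈ K)}

open Q291.OP in
lemma shelter_stable (K : Set (ℤ × ℤ))
    (h1 : ∀ z ∈ K, z + (1, 0) ∈ K ∨ z + (0, 1) ∈ K)
    (h2 : ∀ z ∈ K, z - (1, 0) ∈ K ∨ z - (0, 1) ∈ K) :
    ∀ v ∈ shelter K, {w | gadget.Adj v w ∧ w ∉ shelter K}.encard ≤ 1 := by
  rintro ⟨z, t⟩ ⟨hz, h5, h6⟩
  simp only at hz h5 h6
  have fin : ∀ a : Q291.OP.V, {w | gadget.Adj (z, t) w ∧ w ∉ shelter K} ⊆ {a} →
      {w | gadget.Adj (z, t) w ∧ w ∉ shelter K}.encard ≤ 1 := by
    intro a ha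
    exact (Set.encard_le_encard ha).trans (by rw [Set.encard_singleton])
  have mem : ∀ (s : Fin 7), s ≠ 5 → s ≠ 6 → (z, s) ∈ shelter K := by
    intro s hs5 hs6
    exact ⟨hz, fun h => absurd h hs5, fun h => absurd h hs6⟩
  fin_cases t
  · -- vertex 0
    rcases h2 z hz with h | h
    · apply fin (z - (0, 1), 6)
      rintro w ⟨hw, hn⟩
      rw [adj_iff] at hw
      rcases hw with rfl | rfl | rfl | rfl
      · exact absurd (mem 1 (by decide) (by decide)) hn
      · exact absurd (mem 2 (by decide) (by decide)) hn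
      · refine absurd (show (z - (1, 0), (5 : Fin 7)) ∈ shelter K from ?_) hn
        exact ⟨h, fun _ => by simpa using hz, fun h => absurd h (by simp)⟩
      · rfl
    · apply fin (z - (1, 0), 5)
      rintro w ⟨hw, hn⟩
      rw [adj_iff] at hw
      rcases hw with rfl | rfl | rfl | rfl
      · exact absurd (mem 1 (by decide) (by decide)) hn
      · exact absurd (mem 2 (by decide) (by decide)) hn
      · rfl
      · refine absurd (show (z - (0, 1), (6 : Fin 7)) ∈ shelter K from ?_) hn
        exact ⟨h, fun h => absurd h (by simp), fun _ => by simpa using hz⟩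
  · -- vertex 1
    apply fin (z - (1, 0), 5)
    rintro w ⟨hw, hn⟩
    rw [adj_iff] at hw
    rcases hw with rfl | rfl | rfl | rfl
    · exact absurd (mem 3 (by decide) (by decide)) hn
    · exact absurd (mem 4 (by decide) (by decide)) hn
    · exact absurd (mem 0 (by decide) (by decide)) hn
    · rfl
  · -- vertex 2
    apply fin (z - (0, 1), 6)
    rintro w ⟨hw, hn⟩
    rw [adj_iff] at hw
    rcases hw with rfl | rfl | rfl | rfl
    · exact absurd (mem 3 (by decide) (by decide)) hn
    · exact absurd (mem 4 (by decide) (by decide)) hn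
    · exact absurd (mem 0 (by decide) (by decide)) hn
    · rfl
  · -- vertex 3
    rcases h1 z hz with h | h
    · apply fin (z, 6)
      rintro w ⟨hw, hn⟩
      rw [adj_iff] at hw
      rcases hw with rfl | rfl | rfl | rfl
      · exact absurd (show (z, (5 : Fin 7)) ∈ shelter K from
          ⟨hz, fun _ => h, fun h => absurd h (by simp)⟩) hn
      · rfl
      · exact absurd (mem 1 (by decide) (by decide)) hn
      · exact absurd (mem 2 (by decide) (by decide)) hn
    · apply fin (z, 5)
      rintro w ⟨hw, hn⟩
      rw [adj_iff] at hw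
      rcases hw with rfl | rfl | rfl | rfl
      · rfl
      · exact absurd (show (z, (6 : Fin 7)) ∈ shelter K from
          ⟨hz, fun h => absurd h (by simp), fun _ => h⟩) hn
      · exact absurd (mem 1 (by decide) (by decide)) hn
      · exact absurd (mem 2 (by decide) (by decide)) hn
  · -- vertex 4
    rcases h1 z hz with h | h
    · apply fin (z, 6)
      rintro w ⟨hw, hn⟩
      rw [adj_iff] at hw
      rcases hw with rfl | rfl | rfl | rfl
      · exact absurd (show (z, (5 : Fin 7)) ∈ shelter K from
          ⟨hz, fun _ => h, fun h => absurd h (by simp)⟩) hn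
      · rfl
      · exact absurd (mem 1 (by decide) (by decide)) hn
      · exact absurd (mem 2 (by decide) (by decide)) hn
    · apply fin (z, 5)
      rintro w ⟨hw, hn⟩
      rw [adj_iff] at hw
      rcases hw with rfl | rfl | rfl | rfl
      · rfl
      · exact absurd (show (z, (6 : Fin 7)) ∈ shelter K from
          ⟨hz, fun h => absurd h (by simp), fun _ => h⟩) hn
      · exact absurd (mem 1 (by decide) (by decide)) hn
      · exact absurd (mem 2 (by decide) (by decide)) hn
  · -- vertex 5
    have hK : z + (1, 0) ∈ K := h5 rfl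
    apply fin (z, 0)
    rintro w ⟨hw, hn⟩
    rw [adj_iff] at hw
    rcases hw with rfl | rfl | rfl | rfl
    · exact absurd (show (z + (1, 0), (0 : Fin 7)) ∈ shelter K from
          ⟨hK, fun h => absurd h (by simp), fun h => absurd h (by simp)⟩) hn
    · exact absurd (show (z + (1, 0), (1 : Fin 7)) ∈ shelter K from
          ⟨hK, fun h => absurd h (by simp), fun h => absurd h (by simp)⟩) hn
    · exact absurd (mem 3 (by decide) (by decide)) hn
    · exact absurd (mem 4 (by decide) (by decide)) hn
  · -- vertex 6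
    have hK : z + (0, 1) ∈ K := h6 rfl
    apply fin (z, 0)
    rintro w ⟨hw, hn⟩
    rw [adj_iff] at hw
    rcases hw with rfl | rfl | rfl | rfl
    · exact absurd (show (z + (0, 1), (0 : Fin 7)) ∈ shelter K from
          ⟨hK, fun h => absurd h (by simp), fun h => absurd h (by simp)⟩) hn
    · exact absurd (show (z + (0, 1), (2 : Fin 7)) ∈ shelter K from
          ⟨hK, fun h => absurd h (by simp), fun h => absurd h (by simp)⟩) hn
    · exact absurd (mem 3 (by decide) (by decide)) hn
    · exact absurd (mem 4 (by decide) (by decide)) hn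

/-- The probability that all the cells of `S` contain an infected vertex. -/
lemma all_bad (p : unitInterval) (σ : ℤ × ℤ → ℤ × ℤ) (hσ : Function.Injective σ)
    (S : Finset (ℤ × ℤ)) :
    bernoulli Q291.OP.V p {c | ∀ z ∈ S, ∃ t : Fin 7, c (σ z, t) = true} ≤
      (7 * ENNReal.ofReal p) ^ S.card := by
  classical
  have hsub : {c : Q291.OP.V → Bool | ∀ z ∈ S, ∃ t : Fin 7, c (σ z, t) = true} ⊆
      ⋃ g : S → Fin 7, {c | ∀ x ∈ Finset.univ.image (fun z : S => (σ z, g z)), c x = true} := by
    intro c hc
    choose! g hg using hc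
    rw [Set.mem_iUnion]
    refine ⟨fun z => g z, ?_⟩
    intro x hx
    rw [Finset.mem_image] at hx
    obtain ⟨z, _, rfl⟩ := hx
    exact hg z z.2
  calc bernoulli Q291.OP.V p {c | ∀ z ∈ S, ∃ t : Fin 7, c (σ z, t) = true}
      ≤ bernoulli Q291.OP.V p (⋃ g : S → Fin 7,
        {c | ∀ x ∈ Finset.univ.image (fun z : S => (σ z, g z)), c x = true}) :=
        measure_mono hsub
    _ ≤ ∑ g : S → Fin 7, bernoulli Q291.OP.V p
        {c | ∀ x ∈ Finset.univ.image (fun z : S => (σ z, g z)), c x = true} := by
        refine (measure_iUnion_le _).trans ?_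
        rw [tsum_fintype]
    _ = ∑ g : S → Fin 7, ENNReal.ofReal p ^ S.card := by
        apply Finset.sum_congr rfl
        intro g _
        unfold bernoulli
        rw [Q291.OP.all_true, Finset.card_image_of_injective, Finset.card_univ,
          Fintype.card_coe]
        intro z z' h
        exact Subtype.ext (hσ (Prod.ext_iff.mp h).1)
    _ = (7 * ENNReal.ofReal p) ^ S.card := by
        rw [Finset.sum_const, Finset.card_univ, mul_pow]
        simp

theorem main (p : unitInterval) (hp : (p : ℝ) < 1 / 458752) :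
    bernoulli Q291.OP.V p (invasion Q291.OP.gadget) < 1 := by
  set μ := bernoulli Q291.OP.V p with hμ
  let good : (Q291.OP.V → Bool) → ℤ × ℤ → Prop := fun c z => ∀ t : Fin 7, c (z, t) = false
  have hng : ∀ c z, ¬ good c z ↔ ∃ t : Fin 7, c (z, t) = true := by
    intro c z
    simp [good]
  have hsub : invasion Q291.OP.gadget ⊆
      {c | ∀ z ∈ ({(0, 0)} : Finset (ℤ × ℤ)), ∃ t : Fin 7, c (z, t) = true} ∪
      ({c | ∃ n : ℕ, 1 ≤ n ∧ ∃ w : ℕ → Fin 4,
          (∀ z ∈ Q291.OP.cells n w, c ∈ {c | ∃ t : Fin 7, c (z, t) = true}) ∧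
          n ≤ 4 * (Q291.OP.cells n w).card} ∪
       {c | ∃ n : ℕ, 1 ≤ n ∧ ∃ w : ℕ → Fin 4,
          (∀ z ∈ Q291.OP.cells n w, c ∈ {c | ∃ t : Fin 7, c (-z, t) = true}) ∧
          n ≤ 4 * (Q291.OP.cells n w).card}) := by
    intro c hc
    by_cases h : (0, 0) ∈ Q291.OP.core (good c)
    · exfalso
      obtain ⟨n, hn⟩ := hc ((0, 0), 0)
      have hst := shelter_stable (Q291.OP.core (good c)) (fun z hz => Q291.OP.core_succ hz)
        (fun z hz => Q291.OP.core_pred hz)
      have hh := stays_healthy Q291.OP.gadget (shelter (Q291.OP.core (good c))) c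
        (fun v hv => hv.1.1 v.2) hst n ((0, 0), 0)
        ⟨h, fun h => absurd h (by simp), fun h => absurd h (by simp)⟩
      rw [hh] at hn
      exact Bool.false_ne_true hn
    · rcases Q291.OP.core_or h with h1 | h1 | h1
      · left
        intro z hz
        rw [Finset.mem_singleton] at hz
        subst hz
        exact (hng c _).1 h1
      · right; left
        obtain ⟨n, hn, w, h2, h3⟩ := h1
        exact ⟨n, hn, w, fun z hz => (hng c _).1 (h2 z hz), h3⟩
      · right; right
        obtain ⟨n, hn, w, h2, h3⟩ := h1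
        exact ⟨n, hn, w, fun z hz => (hng c _).1 (h2 z hz), h3⟩
  have hq : 7 * ENNReal.ofReal p ≤ (16 : ENNReal)⁻¹ ^ 4 := by
    have h1 : ENNReal.ofReal p ≤ ENNReal.ofReal (1 / 458752) := ENNReal.ofReal_le_ofReal hp.le
    have h2 : (16 : ENNReal)⁻¹ ^ 4 = ENNReal.ofReal (1 / 65536) := by
      rw [show (16 : ENNReal)⁻¹ = ENNReal.ofReal (1 / 16) by
        rw [one_div, ENNReal.ofReal_inv_of_pos (by norm_num)]; simp]
      rw [← ENNReal.ofReal_pow (by norm_num)]
      norm_num
    have h3 : (7 : ENNReal) * ENNReal.ofReal (1 / 458752) = ENNReal.ofReal (1 / 65536) := by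
      rw [show (7 : ENNReal) = ENNReal.ofReal 7 by simp, ← ENNReal.ofReal_mul (by norm_num)]
      norm_num
    rw [h2, ← h3]
    gcongr
  have b0 : μ {c | ∀ z ∈ ({(0, 0)} : Finset (ℤ × ℤ)), ∃ t : Fin 7, c (z, t) = true} ≤
      (16 : ENNReal)⁻¹ := by
    have := all_bad p id Function.injective_id {(0, 0)}
    simp only [id, Finset.card_singleton, pow_one] at this
    refine this.trans (hq.trans ?_)
    calc (16 : ENNReal)⁻¹ ^ 4 ≤ (16 : ENNReal)⁻¹ ^ 1 := by
          apply pow_le_pow_right_of_le_one' _ (by norm_num)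
          rw [ENNReal.inv_le_one]; norm_num
      _ = (16 : ENNReal)⁻¹ := pow_one _
  have b1 := Q291.OP.union_bound μ (fun z => {c | ∃ t : Fin 7, c (z, t) = true})
    (7 * ENNReal.ofReal p) hq (fun S => all_bad p id Function.injective_id S)
  have b2 := Q291.OP.union_bound μ (fun z => {c | ∃ t : Fin 7, c (-z, t) = true})
    (7 * ENNReal.ofReal p) hq (fun S => all_bad p (fun z => -z) neg_injective S)
  calc μ (invasion Q291.OP.gadget) ≤ _ := measure_mono hsub
    _ ≤ (16 : ENNReal)⁻¹ + (3⁻¹ + 3⁻¹) := by
        refine (measure_union_le _ _).trans ?_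
        refine add_le_add b0 ?_
        exact (measure_union_le _ _).trans (add_le_add b1 b2)
    _ < 1 := by
        have h16 : (16 : ENNReal)⁻¹ = ENNReal.ofReal (1 / 16) := by
          rw [one_div, ENNReal.ofReal_inv_of_pos (by norm_num)]; simp
        have h3 : (3 : ENNReal)⁻¹ = ENNReal.ofReal (1 / 3) := by
          rw [one_div, ENNReal.ofReal_inv_of_pos (by norm_num)]; simp
        rw [h16, h3, ← ENNReal.ofReal_add (by norm_num) (by norm_num),
          ← ENNReal.ofReal_add (by norm_num) (by norm_num), ENNReal.ofReal_lt_one]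
        norm_num

lemma quasi : QuasiIsometric Q291.OP.gadget lattice := by
  have e : lattice = Q291.OP.lattice := rfl
  rw [e]
  refine ⟨fun v => v.1, 4, 6, by norm_num, by norm_num, ?_, ?_⟩
  · intro x y
    have h1 := Q291.OP.dist_lower x y
    have h2 := Q291.OP.dist_upper x y
    have h1' : (Q291.OP.lattice.dist x.1 y.1 : ℝ) ≤ Q291.OP.gadget.dist x y := by exact_mod_cast h1
    have h2' : (Q291.OP.gadget.dist x y : ℝ) ≤ 4 * Q291.OP.lattice.dist x.1 y.1 + 6 := by
      exact_mod_cast h2
    have h3 : (0 : ℝ) ≤ Q291.OP.gadget.dist x y := by positivity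
    constructor
    · linarith
    · linarith
  · intro z
    refine ⟨(z, 0), ?_⟩
    simp

/-- There is an infinite connected 4-regular graph, quasi-isometric to `ℤ²` and without fortress,
such that for all small `p` the invasion set does not have full Bernoulli measure. -/
theorem result : ∃ (V : Type) (G : SimpleGraph V),
    Countable V ∧ Infinite V ∧ G.Connected ∧ (∀ v, (G.neighborSet v).encard = 4) ∧
    QuasiIsometric G lattice ∧ (∀ S : Set V, ¬ IsFortress G S) ∧
    ∃ p₀ : ℝ, 0 < p₀ ∧ ∀ p : unitInterval, (p : ℝ) < p₀ → bernoulli V p (invasion G) < 1 := by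
  refine ⟨Q291.OP.V, Q291.OP.gadget, inferInstance, inferInstance, Q291.OP.gadget_connected,
    Q291.OP.four_regular, quasi, ?_, 1 / 458752, by norm_num, main⟩
  rintro S ⟨h1, h2, h3⟩
  obtain ⟨v, hv, h⟩ := Q291.OP.no_fortress S h1 h2
  have : (2 : ℕ∞) ≤ 1 := h.trans (h3 v hv)
  exact absurd this (by decide)

end Pool.Agent.Results.MP_38c1f8_pr.FortressFree
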